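import Pool.Agent.V1180.MSe

/-!
# Maximally singular solutions of the `p`-Laplace Dirichlet problem exist
-/

namespace Pool.Agent.Results.MP_83d99e_an.MaximallySingular

open MeasureTheory Filter Topology Set Metric Pool.Agent.V1180.MS
open scoped InnerProductSpace ENNReal ContDiff

/-- `u ∈ W₀^{1,p}(Ω)` with weak gradient `G`: `(u, G)` is a limit in `L^p(Ω)` of pairs
`(φ, ∇φ)`, `φ ∈ C_c^∞(Ω)`. -/
def IsW0 {N : ℕ} (Ω : Set (E N)) (p : ℝ) (u : E N → ℝ) (G : E N → E N) : Prop :=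
  MemLp u (ENNReal.ofReal p) (volume.restrict Ω) ∧
  MemLp G (ENNReal.ofReal p) (volume.restrict Ω) ∧
  ∀ ε : ℝ, 0 < ε → ∃ φ : E N → ℝ, IsTest Ω φ ∧
    eLpNorm (fun x => u x - φ x) (ENNReal.ofReal p) (volume.restrict Ω) < ENNReal.ofReal ε ∧
    eLpNorm (fun x => G x - gradient φ x) (ENNReal.ofReal p) (volume.restrict Ω) <
      ENNReal.ofReal ε

/-- The set `X(Ω, p)` of weak solutions of `-Δ_p u = F`, `u ∈ W₀^{1,p}(Ω)`, where `F` ranges over
`L^{p'}(Ω)`, `p' = p / (p - 1)`. -/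
def X {N : ℕ} (Ω : Set (E N)) (p : ℝ) : Set (E N → ℝ) :=
  {u | ∃ (G : E N → E N) (F : E N → ℝ), IsW0 Ω p u G ∧
    MemLp F (ENNReal.ofReal (p / (p - 1))) (volume.restrict Ω) ∧
    ∀ φ : E N → ℝ, IsTest Ω φ →
      ∫ x in Ω, ⟪‖G x‖ ^ (p - 2) • G x, gradient φ x⟫_ℝ = ∫ x in Ω, F x * φ x}

/-- The singular set of `u`. -/
def Sing {N : ℕ} (Ω : Set (E N)) (u : E N → ℝ) : Set (E N) :=
  {a | a ∈ Ω ∧ ∃ C γ r : ℝ, 0 < C ∧ 0 < γ ∧ 0 < r ∧ ball a r ⊆ Ω ∧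
    ∀ᵐ x ∂(volume.restrict (ball a r)), C * ‖x - a‖ ^ (-γ) ≤ u x}

/-- The singular dimension of a set of functions. -/
noncomputable def sdim {N : ℕ} (Ω : Set (E N)) (S : Set (E N → ℝ)) : ℝ≥0∞ :=
  ⨆ u ∈ S, dimH (Sing Ω u)

/-- `v` is maximally singular in `S`. -/
def IsMaximallySingular {N : ℕ} (Ω : Set (E N)) (S : Set (E N → ℝ)) (v : E N → ℝ) : Prop :=
  v ∈ S ∧ dimH (Sing Ω v) = sdim Ω S

theorem toW0 {N : ℕ} {Ω : Set (E N)} {p : ℝ} [Fact (1 ≤ ENNReal.ofReal p)] {u : E N → ℝ}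
    {G : E N → E N} (h : IsW0 Ω p u G) : ∃ z ∈ W0 Ω p, z.1 =ᵐ[volume.restrict Ω] u ∧
      z.2 =ᵐ[volume.restrict Ω] G := by
  obtain ⟨hu, hG, happ⟩ := h
  refine ⟨(hu.toLp u, hG.toLp G), ?_, hu.coeFn_toLp, hG.coeFn_toLp⟩
  have hcl : ((hu.toLp u, hG.toLp G) : Lp ℝ (ENNReal.ofReal p) (volume.restrict Ω) ×
      Lp (E N) (ENNReal.ofReal p) (volume.restrict Ω)) ∈ closure (V0 Ω p : Set
      (Lp ℝ (ENNReal.ofReal p) (volume.restrict Ω) ×
      Lp (E N) (ENNReal.ofReal p) (volume.restrict Ω))) := by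
    rw [Metric.mem_closure_iff]
    intro ε hε
    obtain ⟨φ, hφ, h1, h2⟩ := happ ε hε
    refine ⟨((hφ.memLp _).toLp φ, (hφ.memLp_grad _).toLp (gradient φ)), ?_, ?_⟩
    · exact mem_V0.2 ⟨φ, hφ, (hφ.memLp _).coeFn_toLp, (hφ.memLp_grad _).coeFn_toLp⟩
    · rw [Prod.dist_eq, max_lt_iff]
      constructor
      · change dist (hu.toLp u) ((hφ.memLp _).toLp φ) < ε
        rw [dist_eq_norm, ← MemLp.toLp_sub hu (hφ.memLp _), Lp.norm_toLp]
        exact ENNReal.toReal_lt_of_lt_ofReal h1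
      · change dist (hG.toLp G) ((hφ.memLp_grad _).toLp (gradient φ)) < ε
        rw [dist_eq_norm, ← MemLp.toLp_sub hG (hφ.memLp_grad _), Lp.norm_toLp]
        exact ENNReal.toReal_lt_of_lt_ofReal h2
  exact hcl

theorem ofW0 {N : ℕ} {Ω : Set (E N)} {p : ℝ} [Fact (1 ≤ ENNReal.ofReal p)]
    {z : Lp ℝ (ENNReal.ofReal p) (volume.restrict Ω) ×
      Lp (E N) (ENNReal.ofReal p) (volume.restrict Ω)} (hz : z ∈ W0 Ω p) :
    IsW0 Ω p (fun x => z.1 x) (fun x => z.2 x) := by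
  refine ⟨Lp.memLp _, Lp.memLp _, fun ε hε => ?_⟩
  have hz' : z ∈ closure (V0 Ω p : Set (Lp ℝ (ENNReal.ofReal p) (volume.restrict Ω) ×
      Lp (E N) (ENNReal.ofReal p) (volume.restrict Ω))) := by
    rw [← Submodule.topologicalClosure_coe]
    exact hz
  rw [Metric.mem_closure_iff] at hz'
  obtain ⟨y, ⟨φ, hφ, h1, h2⟩, hd⟩ := hz' ε hε
  rw [Prod.dist_eq, max_lt_iff] at hd
  refine ⟨φ, hφ, ?_, ?_⟩
  · have h3 := hd.1
    rw [Lp.dist_def] at h3
    have h4 : eLpNorm (fun x => z.1 x - φ x) (ENNReal.ofReal p) (volume.restrict Ω)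
        = eLpNorm (z.1 - y.1 : E N → ℝ) (ENNReal.ofReal p) (volume.restrict Ω) := by
      refine eLpNorm_congr_ae ?_
      filter_upwards [h1] with x hx
      rw [Pi.sub_apply, hx]
    rw [h4]
    have h5 : eLpNorm (z.1 - y.1 : E N → ℝ) (ENNReal.ofReal p) (volume.restrict Ω) ≠ ⊤ :=
      ((Lp.memLp z.1).sub (Lp.memLp y.1)).2.ne
    exact (ENNReal.lt_ofReal_iff_toReal_lt h5).2 h3
  · have h3 := hd.2
    rw [Lp.dist_def] at h3
    have h4 : eLpNorm (fun x => z.2 x - gradient φ x) (ENNReal.ofReal p) (volume.restrict Ω)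
        = eLpNorm (z.2 - y.2 : E N → E N) (ENNReal.ofReal p) (volume.restrict Ω) := by
      refine eLpNorm_congr_ae ?_
      filter_upwards [h2] with x hx
      rw [Pi.sub_apply, hx]
    rw [h4]
    have h5 : eLpNorm (z.2 - y.2 : E N → E N) (ENNReal.ofReal p) (volume.restrict Ω) ≠ ⊤ :=
      ((Lp.memLp z.2).sub (Lp.memLp y.2)).2.ne
    exact (ENNReal.lt_ofReal_iff_toReal_lt h5).2 h3

/-- A countable family in `X(Ω, p)` has its singular sets inside that of one element. -/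
theorem countable_union {N : ℕ} (hN : 1 ≤ N) {Ω : Set (E N)} (hb : Bornology.IsBounded Ω)
    {p : ℝ} (hp : 1 < p) {w : ℕ → E N → ℝ} (hw : ∀ k, w k ∈ X Ω p) :
    ∃ u ∈ X Ω p, ∀ k, Sing Ω (w k) ⊆ Sing Ω u := by
  haveI hfact : Fact (1 ≤ ENNReal.ofReal p) := ⟨by
    rw [ENNReal.one_le_ofReal]
    exact hp.le⟩
  obtain ⟨R, hR, hΩ⟩ := hb.subset_ball_lt 0 (0 : E N)
  choose G F hW hF heq using hw
  choose z hz hz1 hz2 using fun k => toW0 (hW k)
  have hsol : ∀ k, Sol Ω p (z k).2 (F k) := by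
    intro k
    refine sol_ext hp (Lp.memLp _) (hF k) fun φ hφ => ?_
    rw [← heq k φ hφ]
    refine integral_congr_ae ?_
    filter_upwards [hz2 k] with x hx
    rw [hx]
    rfl
  obtain ⟨v, F₀, c, hv, hF₀, hs, hc, hdom⟩ := dominating hN hR.le hΩ hp hz hF hsol
  refine ⟨fun x => v.1 x, ⟨fun x => v.2 x, F₀, ofW0 hv, hF₀, fun φ hφ => ?_⟩, fun k a ha => ?_⟩
  · have h1 := hs ((hφ.memLp _).toLp φ, (hφ.memLp_grad _).toLp (gradient φ))
      ((V0 Ω p).le_topologicalClosure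
        (mem_V0.2 ⟨φ, hφ, (hφ.memLp _).coeFn_toLp, (hφ.memLp_grad _).coeFn_toLp⟩))
    have h2 : ∫ x in Ω, ⟪pA p (v.2 x), ((hφ.memLp_grad (ENNReal.ofReal p)).toLp (gradient φ)) x⟫_ℝ
        = ∫ x in Ω, ⟪‖v.2 x‖ ^ (p - 2) • v.2 x, gradient φ x⟫_ℝ := by
      refine integral_congr_ae ?_
      filter_upwards [(hφ.memLp_grad (ENNReal.ofReal p)).coeFn_toLp] with x hx
      rw [hx]
      rfl
    have h3 : ∫ x in Ω, F₀ x * ((hφ.memLp (ENNReal.ofReal p)).toLp φ) x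
        = ∫ x in Ω, F₀ x * φ x := by
      refine integral_congr_ae ?_
      filter_upwards [(hφ.memLp (ENNReal.ofReal p)).coeFn_toLp] with x hx
      rw [hx]
    rw [← h2, ← h3]
    exact h1
  · obtain ⟨haΩ, C, γ, r, hC, hγ, hr, hsub, hae⟩ := ha
    refine ⟨haΩ, c k * C, γ, r, mul_pos (hc k) hC, hγ, hr, hsub, ?_⟩
    have h1 : ∀ᵐ x ∂(volume.restrict (ball a r)), c k * (z k).1 x ≤ v.1 x :=
      ae_restrict_of_ae_restrict_of_subset hsub (hdom k)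
    have h2 : ∀ᵐ x ∂(volume.restrict (ball a r)), (z k).1 x = w k x :=
      ae_restrict_of_ae_restrict_of_subset hsub (hz1 k)
    filter_upwards [hae, h1, h2] with x hx h1x h2x
    rw [h2x] at h1x
    refine le_trans ?_ h1x
    rw [mul_assoc]
    exact mul_le_mul_of_nonneg_left hx (hc k).le

theorem zero_mem {N : ℕ} (Ω : Set (E N)) (p : ℝ) : (fun _ => (0 : ℝ)) ∈ X Ω p := by
  refine ⟨fun _ => 0, fun _ => 0, ⟨MemLp.zero', MemLp.zero', fun ε hε => ?_⟩, MemLp.zero',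
    fun φ _ => ?_⟩
  · refine ⟨fun _ => 0, IsTest.zero, ?_, ?_⟩
    · have : (fun _ : E N => (0 : ℝ) - 0) = fun _ => 0 := by
        funext x
        simp
      rw [this, eLpNorm_zero']
      exact ENNReal.ofReal_pos.2 hε
    · have : (fun x : E N => (0 : E N) - gradient (fun _ : E N => (0 : ℝ)) x) = fun _ => 0 := by
        funext x
        unfold gradient
        simp
      rw [this, eLpNorm_zero']
      exact ENNReal.ofReal_pos.2 hε
  · simp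

/-- **Theorem.** For every `N ≥ 1`, every bounded open `Ω ⊆ ℝ^N` and every `p ∈ (1, ∞)` the
solution set `X(Ω, p)` contains a maximally singular function. -/
theorem result : ∀ N : ℕ, 1 ≤ N → ∀ Ω : Set (E N), IsOpen Ω → Bornology.IsBounded Ω →
    ∀ p : ℝ, 1 < p → ∃ v : E N → ℝ, IsMaximallySingular Ω (X Ω p) v := by
  intro N hN Ω _ hb p hp
  set S : Set ℝ≥0∞ := (fun u => dimH (Sing Ω u)) '' (X Ω p) with hS
  have hSn : S.Nonempty := ⟨_, _, zero_mem Ω p, rfl⟩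
  obtain ⟨d, _, hd, hdS⟩ := exists_seq_tendsto_sSup hSn (OrderTop.bddAbove S)
  choose w hw hwd using hdS
  obtain ⟨u, hu, hsub⟩ := countable_union hN hb hp hw
  have hsup : sSup S = sdim Ω (X Ω p) := by
    rw [hS, sSup_image]
    rfl
  refine ⟨u, hu, le_antisymm ?_ ?_⟩
  · rw [← hsup]
    exact le_sSup ⟨u, hu, rfl⟩
  · rw [← hsup]
    refine le_of_tendsto' hd fun n => ?_
    rw [← hwd n]
    exact dimH_mono (hsub n)

end Pool.Agent.Results.MP_83d99e_an.MaximallySingular
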